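import Pool.Agent.H594R2.Mey2.Graph
import Pool.Agent.V11214.GS.Faces

/-!
# Schröder's conjecture for graphs with more than `3 n + 486 √n (log n + 1)` edges

A connected graph with `n ≥ 3` vertices and `e` edges has genus at least `1 + (e - 3 n) / 6`, since
every face has at least three sides; and `n` vertices allow only `81 √n (log n + 1)` cops to be
necessary (starting files, for Meyniel's conjecture).
-/

set_option autoImplicit false

namespace Pool.Agent.Results.MP_623eed_co.DenseGraphs

open N6ef48c04 Pool.Agent.V11214.GS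

/-- **Theorem.** Let `G` be a connected graph with `n ≥ 3` vertices and
`e ≥ 3 n - 24 + 486 √n (log n + 1)` edges. Then `c(G) ≤ h + 3` for every embedding of `G` in an
orientable surface, of genus `h`: `2 c(G) ≤ 8 - n + e - f`, where `f` is the number of faces of the
embedding, so that `2 - 2 h = n - e + f`. -/
theorem result : ∀ (V : Type) [Fintype V] (G : SimpleGraph V), G.Connected →
    3 ≤ Fintype.card V →
    3 * (Fintype.card V : ℝ) - 24 + 486 * √(Fintype.card V) * (Real.log (Fintype.card V) + 1) ≤
      Nat.card G.edgeSet →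
    ∀ σ : Equiv.Perm G.Dart, IsRotation G σ →
      2 * (copNumber G : ℤ) ≤
        8 - (Fintype.card V : ℤ) + (Nat.card G.edgeSet : ℤ) - (faces G σ : ℤ) := by
  intro V _ G hG hV he σ hσ
  have h1 := Pool.Agent.H594R2.Mey2.graph_bound G hG
  have h2 : (3 * (faces G σ : ℝ)) ≤ 2 * Nat.card G.edgeSet := by
    exact_mod_cast faces_le hG hV hσ
  have h3 : 2 * (copNumber G : ℝ) ≤
      8 - (Fintype.card V : ℝ) + (Nat.card G.edgeSet : ℝ) - (faces G σ : ℝ) := by
    linarith
  exact_mod_cast h3

end Pool.Agent.Results.MP_623eed_co.DenseGraphs
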